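import Pool.Agent.Helper98_C2.Dual

/-! C2, rows DUA and POS. -/

set_option autoImplicit false

namespace Pool.Agent.C2.H98

open scoped BigOperators Classical
open Module
open Pool.Agent.C2

section
variable {F : Type} [Field F] [Fintype F] {E : Type} [Fintype E]
variable {V : Type} [AddCommGroup V] [Module F V] [Fintype V]

/-- `x_e = 0` for `e ∈ R`, `det x_e = 0` for all other `e` -/
noncomputable def NR (ι : V →ₗ[F] (E → F)) (R : Finset E) : ℕ :=
  ∑ x : (V × V) × (V × V),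
    ind (∀ e ∈ R, zer (ι x.1.1 e) (ι x.1.2 e) (ι x.2.1 e) (ι x.2.2 e)) *
      ind (∀ e ∈ Finset.univ \ R, ι x.1.1 e * ι x.2.2 e = ι x.1.2 e * ι x.2.1 e)

theorem GG_expand (ι : V →ₗ[F] (E → F)) :
    GG ι = ∑ R ∈ (Finset.univ : Finset E).powerset, q F ^ R.card * NR ι R := by
  unfold GG NR
  have h1 : ∀ x : (V × V) × (V × V), (∏ e, (ind (ι x.1.1 e * ι x.2.2 e = ι x.1.2 e * ι x.2.1 e) +
      q F * ind (zer (ι x.1.1 e) (ι x.1.2 e) (ι x.2.1 e) (ι x.2.2 e)))) =
      ∑ R ∈ (Finset.univ : Finset E).powerset, q F ^ R.card *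
        (ind (∀ e ∈ R, zer (ι x.1.1 e) (ι x.1.2 e) (ι x.2.1 e) (ι x.2.2 e)) *
          ind (∀ e ∈ Finset.univ \ R, ι x.1.1 e * ι x.2.2 e = ι x.1.2 e * ι x.2.1 e)) := by
    intro x
    have h2 : ∀ e, (ind (ι x.1.1 e * ι x.2.2 e = ι x.1.2 e * ι x.2.1 e) +
      q F * ind (zer (ι x.1.1 e) (ι x.1.2 e) (ι x.2.1 e) (ι x.2.2 e))) =
      (q F * ind (zer (ι x.1.1 e) (ι x.1.2 e) (ι x.2.1 e) (ι x.2.2 e))) +
      ind (ι x.1.1 e * ι x.2.2 e = ι x.1.2 e * ι x.2.1 e) := fun e => add_comm _ _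
    simp only [h2]
    rw [Finset.prod_add]
    refine Finset.sum_congr rfl fun R _ => ?_
    rw [Finset.prod_mul_distrib, Finset.prod_const, prod_ind, prod_ind]
    ring
  simp only [h1]
  rw [Finset.sum_comm]
  refine Finset.sum_congr rfl fun R _ => ?_
  rw [Finset.mul_sum]

/-- the vectors which vanish on `R` -/
def VR (ι : V →ₗ[F] (E → F)) (R : Finset E) : Submodule F V where
  carrier := {v | ∀ e ∈ R, ι v e = 0}
  zero_mem' := by intro e _; simp
  add_mem' := by
    intro a b ha hb e he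
    simp [ha e he, hb e he]
  smul_mem' := by
    intro c a ha e he
    simp [ha e he]

theorem finrank_VR (ι : V →ₗ[F] (E → F)) (R : Finset E) :
    finrank F V ≤ finrank F (VR ι R) + R.card := by
  let f : V →ₗ[F] (R → F) := (LinearMap.funLeft F F (Subtype.val : R → E)) ∘ₗ ι
  have h1 := LinearMap.finrank_range_add_finrank_ker f
  have h2 : finrank F (LinearMap.range f) ≤ R.card := by
    have := Submodule.finrank_le (LinearMap.range f)
    rw [finrank_fintype_fun_eq_card] at this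
    simpa using this
  have h3 : LinearMap.ker f = VR ι R := by
    ext v
    rw [LinearMap.mem_ker]
    constructor
    · intro h e he
      exact congrFun h ⟨e, he⟩
    · intro h
      funext e
      exact h e.1 e.2
  rw [h3] at h1
  omega

theorem NR_eq (ι : V →ₗ[F] (E → F)) (R : Finset E) :
    NR ι R = NN (ι ∘ₗ (VR ι R).subtype) := by
  unfold NR NN
  simp only [← ind_and]
  rw [sum_ind, sum_ind]
  refine Nat.card_congr
    { toFun := fun x => ⟨((⟨x.1.1.1, fun e he => (x.2.1 e he).1⟩,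
          ⟨x.1.1.2, fun e he => (x.2.1 e he).2.1⟩),
          (⟨x.1.2.1, fun e he => (x.2.1 e he).2.2.1⟩,
          ⟨x.1.2.2, fun e he => (x.2.1 e he).2.2.2⟩)), ?_⟩
      invFun := fun y => ⟨((y.1.1.1.1, y.1.1.2.1), (y.1.2.1.1, y.1.2.2.1)), ?_, ?_⟩
      left_inv := fun _ => rfl
      right_inv := fun _ => rfl }
  · intro e
    simp only [LinearMap.comp_apply, Submodule.subtype_apply]
    by_cases he : e ∈ R
    · obtain ⟨h1, h2, h3, h4⟩ := x.2.1 e he
      rw [h1, h2, h3, h4]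
    · exact x.2.2 e (by simp [he])
  · intro e he
    exact ⟨y.1.1.1.2 e he, y.1.1.2.2 e he, y.1.2.1.2 e he, y.1.2.2.2 e he⟩
  · intro e _
    exact y.2 e

theorem NR_empty (ι : V →ₗ[F] (E → F)) : NR ι ∅ = NN ι := by
  unfold NR NN
  refine Finset.sum_congr rfl fun x _ => ?_
  simp [ind]

theorem dvd_term (ι : V →ₗ[F] (E → F)) (h : 3 ≤ finrank F V) (R : Finset E) (hR : R ≠ ∅) :
    q F ^ 3 ∣ q F ^ R.card * NR ι R := by
  have h1 := finrank_VR ι R
  have h2 : 1 ≤ R.card := Finset.one_le_card.2 (Finset.nonempty_iff_ne_empty.2 hR)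
  have h3 := dvd_NN (ι ∘ₗ (VR ι R).subtype) (min 2 (finrank F (VR ι R))) (min_le_left _ _)
    (min_le_right _ _)
  rw [← NR_eq] at h3
  have h4 := mul_dvd_mul_left (q F ^ R.card) h3
  rw [← pow_add] at h4
  refine (pow_dvd_pow _ ?_).trans h4
  omega

theorem GG_mod (ι : V →ₗ[F] (E → F)) (h : 3 ≤ finrank F V) :
    (q F : ℤ) ^ 3 ∣ (NN ι : ℤ) - (GG ι : ℤ) := by
  rw [GG_expand, ← Finset.add_sum_erase _ _ (Finset.empty_mem_powerset _)]
  have h1 : (q F) ^ 3 ∣ ∑ R ∈ (Finset.univ : Finset E).powerset.erase ∅,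
      q F ^ R.card * NR ι R := by
    refine Finset.dvd_sum fun R hR => ?_
    exact dvd_term ι h R (Finset.ne_of_mem_erase hR)
  obtain ⟨m, hm⟩ := h1
  rw [hm, Finset.card_empty, pow_zero, one_mul, NR_empty]
  refine ⟨-m, ?_⟩
  push_cast
  ring

theorem dvd_GG (ι : V →ₗ[F] (E → F)) (h : 1 ≤ finrank F V) : q F ∣ GG ι := by
  rw [GG_expand]
  refine Finset.dvd_sum fun R _ => ?_
  by_cases hR : R = ∅
  · subst hR
    rw [Finset.card_empty, pow_zero, one_mul, NR_empty]
    have := dvd_NN ι 1 (by norm_num) h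
    rwa [pow_one] at this
  · have h2 : 1 ≤ R.card := Finset.one_le_card.2 (Finset.nonempty_iff_ne_empty.2 hR)
    exact Dvd.dvd.mul_right (dvd_pow_self _ (by omega)) _

end

section
variable {F : Type} [Field F] [Fintype F] {E : Type} [Fintype E]

theorem GG_inst {V : Type} [AddCommGroup V] [Module F V] (i j : Fintype V)
    (ι : V →ₗ[F] (E → F)) :
    @GG F _ E _ V _ _ i ι = @GG F _ E _ V _ _ j ι := by
  rw [Subsingleton.elim i j]

theorem NN_nn (U : Submodule F (E → F)) [Fintype U] : NN U.subtype = nn U Finset.univ := by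
  unfold NN nn
  rw [sum_ind]
  refine Nat.card_congr
    { toFun := fun x => ⟨![x.1.1.1.1, x.1.1.2.1, x.1.2.1.1, x.1.2.2.1], ?_, ?_⟩
      invFun := fun y => ⟨((⟨y.1 0, y.2.1 0⟩, ⟨y.1 1, y.2.1 1⟩),
        (⟨y.1 2, y.2.1 2⟩, ⟨y.1 3, y.2.1 3⟩)), ?_⟩
      left_inv := fun _ => rfl
      right_inv := ?_ }
  · intro i
    fin_cases i
    · exact x.1.1.1.2
    · exact x.1.1.2.2
    · exact x.1.2.1.2
    · exact x.1.2.2.2
  · intro e _
    exact x.2 e
  · intro e
    exact y.2.2 e (Finset.mem_univ e)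
  · intro y
    apply Subtype.ext
    funext i
    fin_cases i <;> rfl

theorem dua : DuaStmt := by
  intro F _ _ E _ _ U h3 hE
  have hq : (Fintype.card F : ℤ) = (q F : ℤ) := by
    unfold q
    rw [Nat.card_eq_fintype_card]
  have hp : finrank F (perp U) = finrank F U := by
    have := finrank_perp U
    omega
  have hp3 : 3 ≤ finrank F (perp U) := by omega
  have h1 := GG_mod U.subtype h3
  have h2 := GG_mod (perp U).subtype hp3
  rw [NN_nn U] at h1
  rw [NN_nn (perp U)] at h2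
  rw [hq]
  have h4 : GG U.subtype = GG (perp U).subtype := by
    have h := GG_dual U.subtype
    rw [Submodule.range_subtype, card_sub (F := F), ← pow_mul, hE] at h
    have hpos : 0 < q F ^ (2 * (2 * finrank F U)) := pow_pos Nat.card_pos _
    have e1 : finrank F U * 4 = 2 * (2 * finrank F U) := by ring
    rw [e1, mul_comm] at h
    have h5 := Nat.eq_of_mul_eq_mul_left hpos h
    exact h5.trans (GG_inst _ _ _)
  rw [h4] at h1
  have := dvd_sub h1 h2
  simpa using this

end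

end Pool.Agent.C2.H98
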