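import Pool.Agent.Helper98_C2.DUA

/-! C2, row POS. -/

set_option autoImplicit false

namespace Pool.Agent.C2.H98

open scoped BigOperators Classical
open Module
open Pool.Agent.C2

section
variable {F : Type} [Field F] [Fintype F] {E : Type} [Fintype E]
variable {V : Type} [AddCommGroup V] [Module F V] [Fintype V]

theorem sub_NN (ι : V →ₗ[F] (E → F)) (h3 : 3 ≤ finrank F V)
    (hE : Fintype.card E < 2 * finrank F V) : (q F : ℤ) ^ 3 ∣ (NN ι : ℤ) := by
  have h1 : q F ^ 3 ∣ GG ι := by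
    have h := GG_dual ι
    rw [card_sub (F := F) (V := V), ← pow_mul] at h
    obtain ⟨j, hj⟩ : ∃ j, finrank F V * 4 = 2 * Fintype.card E + j := ⟨_, (by omega :
      finrank F V * 4 = 2 * Fintype.card E + (finrank F V * 4 - 2 * Fintype.card E))⟩
    have hpos : 0 < q F ^ (2 * Fintype.card E) := pow_pos Nat.card_pos _
    rw [hj, pow_add, mul_assoc, mul_comm] at h
    have h5 := Nat.eq_of_mul_eq_mul_left hpos h
    rw [h5]
    by_cases hj4 : 3 ≤ j
    · exact Dvd.dvd.mul_right (pow_dvd_pow _ hj4) _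
    · have hj2 : j = 2 := by omega
      have h6 : 1 ≤ finrank F (perp (LinearMap.range ι)) := by
        have h7 := finrank_perp (LinearMap.range ι)
        have h8 := LinearMap.finrank_range_add_finrank_ker ι
        omega
      have h9 := dvd_GG (perp (LinearMap.range ι)).subtype h6
      rw [hj2]
      have := mul_dvd_mul_left (q F ^ 2) h9
      rw [← pow_succ] at this
      exact this
  have h2 := GG_mod ι h3
  have h3' : (q F : ℤ) ^ 3 ∣ (GG ι : ℤ) := by exact_mod_cast h1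
  have := dvd_add h2 h3'
  simpa using this

end

section
variable {F : Type} [Field F] [Fintype F] {E : Type} [Fintype E]

/-- restriction to `S` -/
def res (U : Submodule F (E → F)) (S : Finset E) : U →ₗ[F] (S → F) :=
  (LinearMap.funLeft F F (Subtype.val : S → E)) ∘ₗ U.subtype

theorem NN_res (U : Submodule F (E → F)) [Fintype U] (S : Finset E) :
    NN (res U S) = ∑ x : (U × U) × (U × U),
      ind (∀ e ∈ S, x.1.1.1 e * x.2.2.1 e = x.1.2.1 e * x.2.1.1 e) := by
  unfold NN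
  refine Finset.sum_congr rfl fun x _ => ind_congr ?_
  constructor
  · intro h e he
    exact h ⟨e, he⟩
  · intro h e
    exact h e.1 e.2

theorem np_eq (U : Submodule F (E → F)) [Fintype U] :
    np U = ∑ x : (U × U) × (U × U),
      ind (∀ e, ¬ x.1.1.1 e * x.2.2.1 e = x.1.2.1 e * x.2.1.1 e) := by
  unfold np
  rw [sum_ind]
  symm
  refine Nat.card_congr
    { toFun := fun x => ⟨![x.1.1.1.1, x.1.1.2.1, x.1.2.1.1, x.1.2.2.1], ?_, ?_⟩
      invFun := fun y => ⟨((⟨y.1 0, y.2.1 0⟩, ⟨y.1 1, y.2.1 1⟩),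
        (⟨y.1 2, y.2.1 2⟩, ⟨y.1 3, y.2.1 3⟩)), ?_⟩
      left_inv := fun _ => rfl
      right_inv := ?_ }
  · intro i
    fin_cases i
    · exact x.1.1.1.2
    · exact x.1.1.2.2
    · exact x.1.2.1.2
    · exact x.1.2.2.2
  · intro e
    exact x.2 e
  · intro e
    exact y.2.2 e
  · intro y
    apply Subtype.ext
    funext i
    fin_cases i <;> rfl

theorem np_expand (U : Submodule F (E → F)) [Fintype U] :
    (np U : ℤ) = ∑ S ∈ (Finset.univ : Finset E).powerset,
      (-1 : ℤ) ^ S.card * (NN (res U S) : ℤ) := by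
  rw [np_eq]
  have h1 : ∀ x : (U × U) × (U × U),
      ((ind (∀ e, ¬ x.1.1.1 e * x.2.2.1 e = x.1.2.1 e * x.2.1.1 e) : ℕ) : ℤ) =
      ∑ S ∈ (Finset.univ : Finset E).powerset, (-1 : ℤ) ^ S.card *
        ((ind (∀ e ∈ S, x.1.1.1 e * x.2.2.1 e = x.1.2.1 e * x.2.1.1 e) : ℕ) : ℤ) := by
    intro x
    have h2 : ((ind (∀ e, ¬ x.1.1.1 e * x.2.2.1 e = x.1.2.1 e * x.2.1.1 e) : ℕ) : ℤ) =
        ∏ e, ((- ((ind (x.1.1.1 e * x.2.2.1 e = x.1.2.1 e * x.2.1.1 e) : ℕ) : ℤ)) + 1) := by
      have h3 : ∀ e, ((- ((ind (x.1.1.1 e * x.2.2.1 e = x.1.2.1 e * x.2.1.1 e) : ℕ) : ℤ)) + 1) =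
          ((ind (¬ x.1.1.1 e * x.2.2.1 e = x.1.2.1 e * x.2.1.1 e) : ℕ) : ℤ) := by
        intro e
        unfold ind
        by_cases h : x.1.1.1 e * x.2.2.1 e = x.1.2.1 e * x.2.1.1 e <;> simp [h]
      simp only [h3]
      rw [← Nat.cast_prod, prod_ind]
      simp
    rw [h2, Finset.prod_add]
    refine Finset.sum_congr rfl fun S _ => ?_
    rw [Finset.prod_const_one, mul_one, Finset.prod_neg, ← Nat.cast_prod, prod_ind]
  rw [Nat.cast_sum]
  simp only [h1]
  rw [Finset.sum_comm]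
  refine Finset.sum_congr rfl fun S _ => ?_
  rw [NN_res, Nat.cast_sum, Finset.mul_sum]

theorem pos : PosStmt := by
  intro F _ _ E _ _ U h3 hE
  have hq : (Fintype.card F : ℤ) = (q F : ℤ) := by
    unfold q
    rw [Nat.card_eq_fintype_card]
  rw [hq, ← NN_nn U, np_expand U,
    ← Finset.add_sum_erase _ _ (Finset.mem_powerset_self (Finset.univ : Finset E))]
  have h1 : NN (res U Finset.univ) = NN U.subtype := by
    rw [NN_res]
    unfold NN
    refine Finset.sum_congr rfl fun x _ => ind_congr ?_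
    simp
  have h2 : (q F : ℤ) ^ 3 ∣ ∑ S ∈ (Finset.univ : Finset E).powerset.erase Finset.univ,
      (-1 : ℤ) ^ S.card * (NN (res U S) : ℤ) := by
    refine Finset.dvd_sum fun S hS => ?_
    refine Dvd.dvd.mul_left ?_ _
    refine sub_NN (res U S) h3 ?_
    rw [← hE, Fintype.card_coe, ← Finset.card_univ]
    exact Finset.card_lt_card (Finset.ssubset_univ_iff.2 (Finset.ne_of_mem_erase hS))
  have h4 : (-1 : ℤ) ^ (Finset.univ : Finset E).card = 1 := by
    rw [Finset.card_univ, hE, pow_mul]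
    simp
  rw [h1, h4, one_mul]
  have : ((NN U.subtype : ℕ) : ℤ) - ((NN U.subtype : ℕ) + ∑ S ∈
      (Finset.univ : Finset E).powerset.erase Finset.univ,
      (-1 : ℤ) ^ S.card * (NN (res U S) : ℤ)) = - ∑ S ∈
      (Finset.univ : Finset E).powerset.erase Finset.univ,
      (-1 : ℤ) ^ S.card * (NN (res U S) : ℤ) := by ring
  rw [this]
  exact (dvd_neg).2 h2

end

end Pool.Agent.C2.H98
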