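import Pool.Agent.C2.Stmts

/-! C2, part U: subspaces of `F^E` and their orthogonal complements. -/

set_option autoImplicit false

namespace Pool.Agent.C2.H98

open scoped BigOperators Classical
open Module
open Pool.Agent.C2

section
variable {F : Type} [Field F] {E : Type} [Fintype E]

theorem mem_perp (U : Submodule F (E → F)) (p : E → F) :
    p ∈ perp U ↔ ∀ y ∈ U, ∑ e, p e * y e = 0 := Iff.rfl

theorem finrank_perp (U : Submodule F (E → F)) :
    finrank F (perp U) + finrank F U = Fintype.card E := by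
  have h1 : (perp U).map (dotProductEquiv F E : (E → F) →ₗ[F] Dual F (E → F)) =
      U.dualAnnihilator := by
    ext φ
    constructor
    · rintro ⟨p, hp, rfl⟩
      rw [Submodule.mem_dualAnnihilator]
      intro w hw
      exact hp w hw
    · intro hφ
      obtain ⟨p, rfl⟩ := (dotProductEquiv F E).surjective φ
      refine ⟨p, ?_, rfl⟩
      intro y hy
      exact (Submodule.mem_dualAnnihilator _).1 hφ y hy
  have h2 : finrank F (perp U) = finrank F U.dualAnnihilator := by
    rw [← h1]
    exact (LinearEquiv.finrank_map_eq (dotProductEquiv F E) (perp U)).symm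
  have h3 := Subspace.finrank_add_finrank_dualAnnihilator_eq U
  rw [finrank_fintype_fun_eq_card] at h3
  omega

end

section
variable {F : Type} [Field F] [Finite F] {E : Type} [Fintype E]

/-- number of elements of the field -/
noncomputable def q (F : Type) : ℕ := Nat.card F

omit [Finite F] in
theorem card_sub {V : Type} [AddCommGroup V] [Module F V] [Module.Finite F V] :
    Nat.card V = q F ^ finrank F V := by
  exact Module.natCard_eq_pow_finrank

/-- Duality for the kernel of a linear map to `F^E`. -/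
theorem card_ker {V : Type} [AddCommGroup V] [Module F V] [Module.Finite F V]
    (f : V →ₗ[F] (E → F)) :
    Nat.card (LinearMap.ker f) * q F ^ Fintype.card E =
      Nat.card V * Nat.card (perp (LinearMap.range f)) := by
  rw [card_sub (F := F) (V := LinearMap.ker f), card_sub (F := F) (V := V),
    card_sub (F := F) (V := perp (LinearMap.range f)), ← pow_add, ← pow_add]
  congr 1
  have h1 := LinearMap.finrank_range_add_finrank_ker f
  have h2 := finrank_perp (LinearMap.range f)
  omega

end


/-! ### counts for a linear map `ι : V → F^E` -/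

section
variable {F : Type} [Field F] [Fintype F] {E : Type} [Fintype E]
variable {V : Type} [AddCommGroup V] [Module F V] [Fintype V]

/-- `1` if true -/
noncomputable def ind (P : Prop) : ℕ := if P then 1 else 0

theorem ind_and (P Q : Prop) : ind (P ∧ Q) = ind P * ind Q := by
  unfold ind
  by_cases hP : P <;> by_cases hQ : Q <;> simp [hP, hQ]

theorem ind_congr {P Q : Prop} (h : P ↔ Q) : ind P = ind Q := by
  unfold ind
  simp [h]

theorem prod_ind {α : Type} (s : Finset α) (P : α → Prop) :
    ∏ a ∈ s, ind (P a) = ind (∀ a ∈ s, P a) := by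
  unfold ind
  by_cases h : ∀ a ∈ s, P a
  · rw [if_pos h]
    exact Finset.prod_eq_one fun a ha => if_pos (h a ha)
  · rw [if_neg h]
    push Not at h
    obtain ⟨a, ha, h⟩ := h
    exact Finset.prod_eq_zero ha (if_neg h)

theorem sum_ind {α : Type} [Fintype α] (P : α → Prop) :
    ∑ a, ind (P a) = Nat.card {a // P a} := by
  unfold ind
  rw [Nat.card_eq_fintype_card, Fintype.card_subtype]
  simp

/-- the number of quadruples `x = ((x11, x12), (x21, x22))` with `det x_e = 0` for all `e` -/
noncomputable def NN (ι : V →ₗ[F] (E → F)) : ℕ :=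
  ∑ x : (V × V) × (V × V), ind (∀ e, ι x.1.1 e * ι x.2.2 e = ι x.1.2 e * ι x.2.1 e)

/-- the four entries vanish -/
def zer (a b c d : F) : Prop := a = 0 ∧ b = 0 ∧ c = 0 ∧ d = 0

noncomputable def GG (ι : V →ₗ[F] (E → F)) : ℕ :=
  ∑ x : (V × V) × (V × V), ∏ e, (ind (ι x.1.1 e * ι x.2.2 e = ι x.1.2 e * ι x.2.1 e) +
    q F * ind (zer (ι x.1.1 e) (ι x.1.2 e) (ι x.2.1 e) (ι x.2.2 e)))

/-- the shear by `v` -/
def shr (v : V) (c : F × F) (y : V × V × V) : V × V × V :=
  (y.1 + c.1 • v, y.2.1 + c.2 • v,
    y.2.2 + (c.1 • y.2.1 + (c.2 • y.1 + (c.1 * c.2) • v)))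

omit [Fintype F] [Fintype V] in
theorem shr_shr (v : V) (c d : F × F) (y : V × V × V) :
    shr v c (shr v d y) = shr v (c + d) y := by
  unfold shr
  refine Prod.ext ?_ (Prod.ext ?_ ?_)
  · change y.1 + d.1 • v + c.1 • v = y.1 + (c.1 + d.1) • v
    module
  · change y.2.1 + d.2 • v + c.2 • v = y.2.1 + (c.2 + d.2) • v
    module
  · change y.2.2 + (d.1 • y.2.1 + (d.2 • y.1 + (d.1 * d.2) • v)) +
      (c.1 • (y.2.1 + d.2 • v) + (c.2 • (y.1 + d.1 • v) + (c.1 * c.2) • v)) =
      y.2.2 + ((c.1 + d.1) • y.2.1 + ((c.2 + d.2) • y.1 + ((c.1 + d.1) * (c.2 + d.2)) • v))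
    module

omit [Fintype F] [Fintype V] in
theorem shr_zero (v : V) (y : V × V × V) : shr v (0 : F × F) y = y := by
  unfold shr
  refine Prod.ext ?_ (Prod.ext ?_ ?_)
  · change y.1 + (0 : F) • v = y.1
    module
  · change y.2.1 + (0 : F) • v = y.2.1
    module
  · change y.2.2 + ((0 : F) • y.2.1 + ((0 : F) • y.1 + ((0 : F) * 0) • v)) = y.2.2
    module

omit [Fintype F] [Fintype V] in
/-- counting along the shears -/
theorem card_shr (f : V →ₗ[F] F) (v : V) (hv : f v = 1) (P : V × V × V → Prop)
    (hP : ∀ (c : F × F) (y : V × V × V), P y → P (shr v c y)) :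
    Nat.card {y // P y} =
      Nat.card (F × F) * Nat.card {y : V × V × V // P y ∧ f y.1 = 0 ∧ f y.2.1 = 0} := by
  have hf1 : ∀ (c : F × F) (y : V × V × V), f (shr v c y).1 = f y.1 + c.1 := by
    intro c y
    change f (y.1 + c.1 • v) = _
    rw [map_add, map_smul, hv, smul_eq_mul, mul_one]
  have hf2 : ∀ (c : F × F) (y : V × V × V), f (shr v c y).2.1 = f y.2.1 + c.2 := by
    intro c y
    change f (y.2.1 + c.2 • v) = _
    rw [map_add, map_smul, hv, smul_eq_mul, mul_one]
  rw [← Nat.card_prod]
  symm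
  refine Nat.card_eq_of_bijective
    (fun z : (F × F) × {y : V × V × V // P y ∧ f y.1 = 0 ∧ f y.2.1 = 0} =>
      (⟨shr v z.1 z.2.1, hP z.1 z.2.1 z.2.2.1⟩ : {y // P y})) ⟨?_, ?_⟩
  · rintro ⟨c, y, hy⟩ ⟨d, z, hz⟩ h
    have h' : shr v c y = shr v d z := congrArg Subtype.val h
    have h1 : c.1 = d.1 := by
      have := congrArg (fun w => f w.1) h'
      simp only [hf1, hy.2.1, hz.2.1, zero_add] at this
      exact this
    have h2 : c.2 = d.2 := by
      have := congrArg (fun w => f w.2.1) h'
      simp only [hf2, hy.2.2, hz.2.2, zero_add] at this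
      exact this
    have h3 : c = d := Prod.ext h1 h2
    subst h3
    have h4 : y = z := by
      have := congrArg (shr v (-c)) h'
      rw [shr_shr, shr_shr, neg_add_cancel, shr_zero, shr_zero] at this
      exact this
    subst h4
    rfl
  · rintro ⟨y, hy⟩
    have e1 : f (shr v (-(f y.1, f y.2.1)) y).1 = 0 := by
      rw [hf1]
      exact add_neg_cancel _
    have e2 : f (shr v (-(f y.1, f y.2.1)) y).2.1 = 0 := by
      rw [hf2]
      exact add_neg_cancel _
    refine ⟨⟨(f y.1, f y.2.1), ⟨shr v (-(f y.1, f y.2.1)) y, hP _ _ hy, e1, e2⟩⟩, ?_⟩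
    apply Subtype.ext
    change shr v (f y.1, f y.2.1) (shr v (-(f y.1, f y.2.1)) y) = y
    rw [shr_shr, add_neg_cancel, shr_zero]

/-- `q ^ k` divides `NN` if `k ≤ 2` and `k ≤ dim V`. -/
theorem dvd_NN (ι : V →ₗ[F] (E → F)) (k : ℕ) (hk : k ≤ 2) (hk' : k ≤ finrank F V) :
    q F ^ k ∣ NN ι := by
  have h0 : NN ι = ∑ v : V, ∑ y : V × V × V, ind (∀ e, ι y.1 e * ι y.2.1 e =
      ι y.2.2 e * ι v e) := by
    unfold NN
    rw [← Fintype.sum_prod_type']
    refine Fintype.sum_equiv
      { toFun := fun x => (x.2.1, x.1.1, x.2.2, x.1.2)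
        invFun := fun y => ((y.2.1, y.2.2.2), (y.1, y.2.2.1))
        left_inv := fun _ => rfl
        right_inv := fun _ => rfl } _ _ fun x => rfl
  rw [h0]
  refine Finset.dvd_sum fun v _ => ?_
  by_cases hv : ι v = 0
  · have h1 : ∑ y : V × V × V, ind (∀ e, ι y.1 e * ι y.2.1 e = ι y.2.2 e * ι v e) =
        Nat.card V * ∑ y : V × V, ind (∀ e, ι y.1 e * ι y.2 e = 0) := by
      rw [Nat.card_eq_fintype_card, ← smul_eq_mul, ← Finset.card_univ, ← Finset.sum_const,
        ← Fintype.sum_prod_type']
      refine Fintype.sum_equiv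
        { toFun := fun x => (x.2.2, x.1, x.2.1)
          invFun := fun y => (y.2.1, y.2.2, y.1)
          left_inv := fun _ => rfl
          right_inv := fun _ => rfl } _ _ fun x => ?_
      refine ind_congr ?_
      simp [hv]
    rw [h1, card_sub (F := F)]
    exact Dvd.dvd.mul_right (pow_dvd_pow _ hk') _
  · have hv' : ∃ e₀, ι v e₀ ≠ 0 := by
      by_contra h
      push Not at h
      exact hv (funext h)
    obtain ⟨e₀, he₀⟩ := hv'
    let f : V →ₗ[F] F := (ι v e₀)⁻¹ • ((LinearMap.proj e₀).comp ι)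
    have hf : f v = 1 := inv_mul_cancel₀ he₀
    have hP : ∀ (c : F × F) (y : V × V × V), (∀ e, ι y.1 e * ι y.2.1 e = ι y.2.2 e * ι v e) →
        (∀ e, ι (shr v c y).1 e * ι (shr v c y).2.1 e = ι (shr v c y).2.2 e * ι v e) := by
      intro c y h e
      have h' := h e
      have e1 : ι (shr v c y).1 e = ι y.1 e + c.1 * ι v e := by
        unfold shr
        rw [map_add, map_smul]
        rfl
      have e2 : ι (shr v c y).2.1 e = ι y.2.1 e + c.2 * ι v e := by
        unfold shr
        rw [map_add, map_smul]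
        rfl
      have e3 : ι (shr v c y).2.2 e = ι y.2.2 e + (c.1 * ι y.2.1 e + (c.2 * ι y.1 e +
          (c.1 * c.2) * ι v e)) := by
        unfold shr
        rw [map_add, map_add, map_add, map_smul, map_smul, map_smul]
        rfl
      rw [e1, e2, e3]
      linear_combination h'
    rw [sum_ind, card_shr f v hf _ hP]
    refine Dvd.dvd.mul_right ?_ _
    have h2 : Nat.card (F × F) = q F ^ 2 := by
      rw [Nat.card_prod, sq]
      rfl
    rw [h2]
    exact pow_dvd_pow _ hk

end

end Pool.Agent.C2.H98
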