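import Pool.Agent.Helper98_C2.Base

/-! C2, part U: the exact duality for `G = [det = 0] + q [X = 0]`. -/

set_option autoImplicit false

namespace Pool.Agent.C2.H98

open scoped BigOperators Classical
open Module
open Pool.Agent.C2

section
variable {F : Type} [Field F] [Fintype F]

/-- the point `t` of the projective line kills the column `(a, c)` -/
def cnd : Option F → F → F → Prop
  | some s, a, c => a + s * c = 0
  | none, _, c => c = 0

theorem g_card (a b c d : F) :
    ind (a * d = b * c) + q F * ind (zer a b c d) =
      ∑ t : Option F, ind (cnd t a c ∧ cnd t b d) := by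
  rw [Fintype.sum_option]
  simp only [cnd]
  by_cases h2 : c = 0 ∧ d = 0
  · obtain ⟨rfl, rfl⟩ := h2
    by_cases h1 : a = 0 ∧ b = 0
    · obtain ⟨rfl, rfl⟩ := h1
      simp [ind, zer, q, Nat.card_eq_fintype_card]
    · have h3 : ¬ zer a b (0 : F) 0 := fun h => h1 ⟨h.1, h.2.1⟩
      have h4 : ∀ s : F, ind (a + s * 0 = 0 ∧ b + s * 0 = 0) = 0 := by
        intro s
        refine if_neg ?_
        intro h
        simp only [mul_zero, add_zero] at h
        exact h1 h
      have h5 : ind (zer a b (0 : F) 0) = 0 := if_neg h3
      have h6 : ind (a * (0 : F) = b * 0) = 1 := if_pos (by simp)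
      have h7 : ind ((0 : F) = 0 ∧ (0 : F) = 0) = 1 := if_pos ⟨rfl, rfl⟩
      rw [h5, h6, h7, Finset.sum_congr rfl fun s _ => h4 s]
      simp
  · have h3 : ¬ zer a b c d := fun h => h2 ⟨h.2.2.1, h.2.2.2⟩
    have h5 : ind (c = 0 ∧ d = 0) = 0 := if_neg h2
    have h6 : ind (zer a b c d) = 0 := if_neg h3
    rw [h5, h6, mul_zero, add_zero, zero_add]
    by_cases h : a * d = b * c
    · -- a unique `s`
      have hs : ∃ s : F, ∀ t : F, (a + t * c = 0 ∧ b + t * d = 0) ↔ t = s := by
        by_cases hc : c = 0
        · have hd : d ≠ 0 := fun hd => h2 ⟨hc, hd⟩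
          subst hc
          have ha : a = 0 := by
            have : a * d = 0 := by rw [h, mul_zero]
            exact (mul_eq_zero.1 this).resolve_right hd
          subst ha
          refine ⟨- b / d, fun t => ⟨fun ht => ?_, fun ht => ?_⟩⟩
          · field_simp
            linear_combination ht.2
          · subst ht
            constructor
            · ring
            · field_simp
              ring
        · refine ⟨- a / c, fun t => ⟨fun ht => ?_, fun ht => ?_⟩⟩
          · field_simp
            linear_combination ht.1
          · subst ht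
            constructor
            · field_simp
              ring
            · field_simp
              linear_combination (-1 : F) * h
      obtain ⟨s, hs⟩ := hs
      have : ∀ t : F, ind (a + t * c = 0 ∧ b + t * d = 0) = if t = s then 1 else 0 := by
        intro t
        exact ind_congr (hs t)
      simp only [this]
      simp [ind, h]
    · have : ∀ t : F, ind (a + t * c = 0 ∧ b + t * d = 0) = 0 := by
        intro t
        refine if_neg ?_
        rintro ⟨h7, h8⟩
        apply h
        have e1 : a = - t * c := by linear_combination h7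
        have e2 : b = - t * d := by linear_combination h8
        rw [e1, e2]
        ring
      simp only [this]
      simp [ind, h]

/-- the involution of the projective line -/
noncomputable def star : Option F → Option F
  | some s => if s = 0 then none else some (- s⁻¹)
  | none => some 0

theorem star_star (t : Option F) : star (star t) = t := by
  cases t with
  | none => simp [star]
  | some s =>
    by_cases h : s = 0
    · simp [star, h]
    · simp [star, h]

noncomputable def starE : Option F ≃ Option F :=
  ⟨star, star, star_star, star_star⟩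

/-- homogeneous coordinates -/
def hs : Option F → F
  | some _ => 1
  | none => 0

def ht : Option F → F
  | some s => s
  | none => 1

theorem cnd_iff (t : Option F) (a c : F) : cnd t a c ↔ hs t * a + ht t * c = 0 := by
  cases t <;> simp [cnd, hs, ht]

theorem cnd_star (t : Option F) (a c : F) : cnd (star t) a c ↔ ht t * a = hs t * c := by
  cases t with
  | none => simp [cnd, star, hs, ht]
  | some s =>
    by_cases h : s = 0
    · subst h
      simp [cnd, star, hs, ht, eq_comm]
    · simp only [cnd, star, hs, ht, h, if_false]
      constructor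
      · intro h1
        have : s * (a + -s⁻¹ * c) = 0 := by rw [h1, mul_zero]
        have h2 : s * (a + -s⁻¹ * c) = s * a - (s * s⁻¹) * c := by ring
        rw [h2, mul_inv_cancel₀ h] at this
        linear_combination this
      · intro h1
        have h2 : a + -s⁻¹ * c = s⁻¹ * (s * a - 1 * c) := by
          have : s⁻¹ * (s * a - 1 * c) = (s⁻¹ * s) * a - s⁻¹ * c := by ring
          rw [this, inv_mul_cancel₀ h]
          ring
        rw [h2, h1]
        ring

end

section
variable {F : Type} [Field F] [Fintype F] {E : Type} [Fintype E]
variable {V : Type} [AddCommGroup V] [Module F V] [Fintype V]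

/-- number of columns killed by `t` -/
noncomputable def WW (ι : V →ₗ[F] (E → F)) (t : E → Option F) : ℕ :=
  ∑ y : V × V, ind (∀ e, cnd (t e) (ι y.1 e) (ι y.2 e))

theorem GG_eq (ι : V →ₗ[F] (E → F)) : GG ι = ∑ t : E → Option F, (WW ι t) ^ 2 := by
  unfold GG
  simp only [g_card]
  have h1 : ∀ x : (V × V) × (V × V), (∏ e, ∑ t : Option F,
      ind (cnd t (ι x.1.1 e) (ι x.2.1 e) ∧ cnd t (ι x.1.2 e) (ι x.2.2 e))) =
      ∑ t : E → Option F, ind (∀ e, cnd (t e) (ι x.1.1 e) (ι x.2.1 e)) *
        ind (∀ e, cnd (t e) (ι x.1.2 e) (ι x.2.2 e)) := by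
    intro x
    rw [Finset.prod_univ_sum, Fintype.piFinset_univ]
    refine Finset.sum_congr rfl fun t _ => ?_
    simp only [ind_and]
    rw [Finset.prod_mul_distrib, prod_ind, prod_ind]
    simp
  simp only [h1]
  rw [Finset.sum_comm]
  refine Finset.sum_congr rfl fun t _ => ?_
  unfold WW
  rw [sq, Finset.sum_mul_sum, ← Fintype.sum_prod_type']
  refine Fintype.sum_equiv
    { toFun := fun x => ((x.1.1, x.2.1), (x.1.2, x.2.2))
      invFun := fun y => ((y.1.1, y.2.1), (y.1.2, y.2.2))
      left_inv := fun _ => rfl
      right_inv := fun _ => rfl } _ _ fun x => rfl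

/-- the linear map `(a, c) ↦ s ι a + t ι c` -/
def lm (ι : V →ₗ[F] (E → F)) (s t : E → F) : (V × V) →ₗ[F] (E → F) where
  toFun y := fun e => s e * ι y.1 e + t e * ι y.2 e
  map_add' := by
    intro a b
    ext e
    simp only [Prod.fst_add, Prod.snd_add, map_add, Pi.add_apply]
    ring
  map_smul' := by
    intro c a
    ext e
    simp only [Prod.smul_fst, Prod.smul_snd, map_smul, Pi.smul_apply, smul_eq_mul,
      RingHom.id_apply]
    ring

theorem mem_perp_lm (ι : V →ₗ[F] (E → F)) (s t : E → F) (α : E → F) :
    α ∈ perp (LinearMap.range (lm ι s t)) ↔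
      (fun e => s e * α e) ∈ perp (LinearMap.range ι) ∧
      (fun e => t e * α e) ∈ perp (LinearMap.range ι) := by
  simp only [mem_perp, LinearMap.mem_range, forall_exists_index, forall_apply_eq_imp_iff]
  constructor
  · intro h
    constructor
    · intro a
      have := h (a, 0)
      simp only [lm, LinearMap.coe_mk, AddHom.coe_mk, map_zero, Pi.zero_apply, mul_zero,
        add_zero] at this
      rw [← this]
      refine Finset.sum_congr rfl fun e _ => ?_
      ring
    · intro a
      have := h (0, a)
      simp only [lm, LinearMap.coe_mk, AddHom.coe_mk, map_zero, Pi.zero_apply, mul_zero,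
        zero_add] at this
      rw [← this]
      refine Finset.sum_congr rfl fun e _ => ?_
      ring
  · rintro ⟨h1, h2⟩ y
    have e1 := h1 y.1
    have e2 := h2 y.2
    simp only [lm, LinearMap.coe_mk, AddHom.coe_mk]
    have : ∑ e, α e * (s e * ι y.1 e + t e * ι y.2 e) =
        (∑ e, s e * α e * ι y.1 e) + ∑ e, t e * α e * ι y.2 e := by
      rw [← Finset.sum_add_distrib]
      refine Finset.sum_congr rfl fun e _ => ?_
      ring
    rw [this, e1, e2, add_zero]

theorem card_ker_lm (ι : V →ₗ[F] (E → F)) (s t : E → F) :
    Nat.card {y : V × V // ∀ e, s e * ι y.1 e + t e * ι y.2 e = 0} *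
      q F ^ Fintype.card E = Nat.card V ^ 2 *
        Nat.card {α : E → F // (fun e => s e * α e) ∈ perp (LinearMap.range ι) ∧
          (fun e => t e * α e) ∈ perp (LinearMap.range ι)} := by
  have h := card_ker (lm ι s t)
  rw [Nat.card_prod, ← sq] at h
  have h1 : Nat.card (LinearMap.ker (lm ι s t)) =
      Nat.card {y : V × V // ∀ e, s e * ι y.1 e + t e * ι y.2 e = 0} := by
    refine Nat.card_congr (Equiv.subtypeEquivRight fun y => ?_)
    rw [LinearMap.mem_ker]
    constructor
    · intro h e
      exact congrFun h e
    · intro h
      exact funext h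
  have h2 : Nat.card (perp (LinearMap.range (lm ι s t))) =
      Nat.card {α : E → F // (fun e => s e * α e) ∈ perp (LinearMap.range ι) ∧
          (fun e => t e * α e) ∈ perp (LinearMap.range ι)} :=
    Nat.card_congr (Equiv.subtypeEquivRight fun α => mem_perp_lm ι s t α)
  rw [h1, h2] at h
  exact h

theorem WW_dual (ι : V →ₗ[F] (E → F)) (t : E → Option F) :
    WW ι t * q F ^ Fintype.card E =
      Nat.card V ^ 2 * WW (perp (LinearMap.range ι)).subtype (fun e => star (t e)) := by
  unfold WW
  rw [sum_ind, sum_ind]
  have h := card_ker_lm ι (fun e => hs (t e)) (fun e => ht (t e))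
  have h1 : Nat.card {y : V × V // ∀ e, cnd (t e) (ι y.1 e) (ι y.2 e)} =
      Nat.card {y : V × V // ∀ e, hs (t e) * ι y.1 e + ht (t e) * ι y.2 e = 0} :=
    Nat.card_congr (Equiv.subtypeEquivRight fun y => forall_congr' fun e => cnd_iff _ _ _)
  rw [h1, h]
  congr 1
  refine Nat.card_congr
    { toFun := fun α => ⟨(⟨_, α.2.1⟩, ⟨_, α.2.2⟩), ?_⟩
      invFun := fun y => ⟨fun e => match t e with
        | some _ => y.1.1.1 e
        | none => y.1.2.1 e, ?_⟩
      left_inv := ?_
      right_inv := ?_ }
  · intro e
    rw [cnd_star]
    simp only [Submodule.subtype_apply]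
    ring
  · have hy : ∀ e, ht (t e) * y.1.1.1 e = hs (t e) * y.1.2.1 e := fun e =>
      (cnd_star _ _ _).1 (y.2 e)
    have e1 : (fun e => hs (t e) * (match t e with
        | some _ => y.1.1.1 e
        | none => y.1.2.1 e)) = y.1.1.1 := by
      funext e
      have := hy e
      cases h' : t e with
      | none =>
        rw [h'] at this
        simp only [hs, ht, one_mul, zero_mul] at this
        simp [hs, this]
      | some s => simp [hs]
    have e2 : (fun e => ht (t e) * (match t e with
        | some _ => y.1.1.1 e
        | none => y.1.2.1 e)) = y.1.2.1 := by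
      funext e
      have := hy e
      cases h' : t e with
      | none => simp [ht]
      | some s =>
        rw [h'] at this
        simp only [hs, ht, one_mul] at this
        simp [ht, this]
    rw [e1, e2]
    exact ⟨y.1.1.2, y.1.2.2⟩
  · rintro ⟨α, hα⟩
    apply Subtype.ext
    funext e
    simp only
    cases h' : t e <;> simp [hs, ht]
  · rintro ⟨⟨⟨y1, h1⟩, ⟨y2, h2⟩⟩, hy'⟩
    have hy : ∀ e, ht (t e) * y1 e = hs (t e) * y2 e := fun e => (cnd_star _ _ _).1 (hy' e)
    apply Subtype.ext
    refine Prod.ext (Subtype.ext ?_) (Subtype.ext ?_)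
    · funext e
      have := hy e
      simp only
      cases h' : t e with
      | none =>
        rw [h'] at this
        simp only [hs, ht, one_mul, zero_mul] at this
        simp [hs, this]
      | some s => simp [hs]
    · funext e
      have := hy e
      simp only
      cases h' : t e with
      | none => simp [ht]
      | some s =>
        rw [h'] at this
        simp only [hs, ht, one_mul] at this
        simp [ht, this]

/-- **The exact duality.** -/
theorem GG_dual (ι : V →ₗ[F] (E → F)) :
    GG ι * q F ^ (2 * Fintype.card E) =
      Nat.card V ^ 4 * GG (perp (LinearMap.range ι)).subtype := by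
  rw [GG_eq, GG_eq, Finset.sum_mul, Finset.mul_sum]
  have h1 : ∀ t : E → Option F, WW ι t ^ 2 * q F ^ (2 * Fintype.card E) =
      Nat.card V ^ 4 * WW (perp (LinearMap.range ι)).subtype (fun e => star (t e)) ^ 2 := by
    intro t
    have := WW_dual ι t
    calc WW ι t ^ 2 * q F ^ (2 * Fintype.card E) = (WW ι t * q F ^ Fintype.card E) ^ 2 := by
          ring
      _ = _ := by
          rw [this]
          ring
  simp only [h1]
  refine Fintype.sum_equiv (Equiv.arrowCongr (Equiv.refl E) starE) _ _ fun t => rfl

end

end Pool.Agent.C2.H98
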